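import Pool.Agent.Q117.FQ.All

/-!
# MP_0ad054_nt: isolated pairs and constellations at the natural scale, for every odd `n`

For every large odd `n`: among the (primitive) representations `n = x² + y² + z² + w²` with `p` and `p - 2` rough, `p = x² + 3 y² + 5 z² + 7 w²`, a
positive proportion has the property that no other integer within `ν log n` of `p` is rough and that no other pair of rough integers with difference `2`
lies within `ν (log n)²` of `p`. The same for arbitrary finite sets of shifts `E` in place of `{0, -2}` and finitely many arbitrary forbidden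
constellations, each up to its own average spacing.
-/

set_option autoImplicit false

namespace Pool.Agent.Results.MP_0ad054_nt.IsolatedPairs

open Finset Filter
open Pool.Agent.W65.FS
open Pool.Agent.Q117.LF (GN oF Ro)
open Pool.Agent.Q117.FQ
open Pool.Agent.Q117.FQ.LOC
open Pool.Agent.Q117.FQ.NQX (VE_nonneg full_small mem_Cnd mem_preps Mn_eq)

/-- the primitive representations of `n` with all the `p + e`, `e ∈ E`, rough (`z` the bound for the prime factors) -/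
def AlmostPrimes (n : ℕ) (E : Finset ℤ) (z : ℝ) : Set (Fin 4 → ℤ) := {X | ∑ i, X i ^ 2 = n ∧ gc X = 1 ∧ ∀ e ∈ E, Ro z (pf X + e)}

/-- those with the property: if `|s| ≤ L γ` and all the `p + s + f`, `f ∈ F γ`, are rough then `s + F γ ⊆ E` -/
def Isolated (n : ℕ) (E : Finset ℤ) (z : ℝ) {g : ℕ} (L : Fin g → ℝ) (F : Fin g → Finset ℤ) : Set (Fin 4 → ℤ) :=
  {X | X ∈ AlmostPrimes n E z ∧ ∀ γ, ∀ s : ℤ, |(s : ℝ)| ≤ L γ → (∀ f ∈ F γ, Ro z (pf X + s + f)) → ∀ f ∈ F γ, s + f ∈ E}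

/-- the representations with `p`, `p - 2` rough, no other rough integer at distance `≤ L` from `p` and no other rough pair with difference `2` with its
larger member at distance `≤ M` from `p` -/
def IsoPair (n : ℕ) (z L M : ℝ) : Set (Fin 4 → ℤ) :=
  {X | X ∈ AlmostPrimes n {0, -2} z ∧ (∀ s : ℤ, |(s : ℝ)| ≤ L → Ro z (pf X + s) → s = 0 ∨ s = -2) ∧
    ∀ s : ℤ, |(s : ℝ)| ≤ M → Ro z (pf X + s) → Ro z (pf X + s - 2) → s = 0}

theorem coe_RR (n : ℕ) (E : Finset ℤ) (z : ℝ) : ((NQX.RR n E z : Finset (Fin 4 → ℤ)) : Set (Fin 4 → ℤ)) = AlmostPrimes n E z := by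
  ext X
  rw [mem_coe, NQX.mem_RR, mem_preps]
  unfold AlmostPrimes
  rw [Set.mem_setOf_eq, and_assoc]

theorem coe_NQ (n : ℕ) (E : Finset ℤ) (z : ℝ) {g : ℕ} (L : Fin g → ℝ) (F : Fin g → Finset ℤ) :
    ((NQ n E z L F : Finset (Fin 4 → ℤ)) : Set (Fin 4 → ℤ)) = Isolated n E z L F := by
  classical
  ext X
  rw [mem_coe]
  unfold NQ Isolated AlmostPrimes
  rw [Finset.mem_filter, mem_preps, Set.mem_setOf_eq, Set.mem_setOf_eq]
  tauto

theorem ncard_RR (n : ℕ) (E : Finset ℤ) (z : ℝ) : (AlmostPrimes n E z).ncard = (NQX.RR n E z).card := by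
  rw [← coe_RR, Set.ncard_coe_finset]

theorem ncard_NQ (n : ℕ) (E : Finset ℤ) (z : ℝ) {g : ℕ} (L : Fin g → ℝ) (F : Fin g → Finset ℤ) :
    (Isolated n E z L F).ncard = (NQ n E z L F).card := by
  rw [← coe_NQ, Set.ncard_coe_finset]

theorem RR_le (n : ℕ) (D : Finset ℤ) {z z' : ℝ} (h : z' ≤ z) : NQX.RR n D z ⊆ NQX.RR n D z' := by
  intro X hX
  rw [NQX.mem_RR] at hX ⊢
  exact ⟨hX.1, fun d hd q hq hqd => h.trans_lt (hX.2 d hd q hq hqd)⟩

/-- the upper bound at an arbitrary level -/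
theorem upper (k T : ℕ) (hT : 1 ≤ T) : ∃ C : ℝ, 0 < C ∧ ∃ n0 : ℕ, ∀ n : ℕ, Odd n → n0 ≤ n → ∀ D : Finset ℤ, D.card ≤ 2 * k →
    ((NQX.RR n D ((n : ℝ) ^ (1 / (T : ℝ)))).card : ℝ) ≤ C * ((preps n).card * VE n D) := by
  obtain ⟨t, ht, h⟩ := gsC (8 * k)
  obtain ⟨c, hc, C, hC, n0, h⟩ := h (max t T) (le_max_left _ _)
  have htR : (0 : ℝ) < 1 / (t : ℝ) := by positivity
  have hTt : (0 : ℝ) < ((max t T : ℕ) : ℝ) := by
    have : 0 < max t T := by omega
    exact_mod_cast this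
  have htR' : (0 : ℝ) < 1 / ((max t T : ℕ) : ℝ) := by positivity
  obtain ⟨n1, hn1⟩ : ∃ n1 : ℕ, ∀ n : ℕ, n1 ≤ n → (8 * (k : ℝ) + 1) ≤ (n : ℝ) ^ (1 / ((max t T : ℕ) : ℝ)) := by
    have h := ((tendsto_rpow_atTop htR').comp tendsto_natCast_atTop_atTop).eventually_ge_atTop (8 * (k : ℝ) + 1)
    obtain ⟨n1, hn1⟩ := eventually_atTop.1 h
    exact ⟨n1, hn1⟩
  refine ⟨C, hC, max (max n0 n1) 1, fun n hn hnn D hD => ?_⟩
  have hn0 : n0 ≤ n := (le_max_left _ _).trans ((le_max_left _ _).trans hnn)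
  have hn1' : n1 ≤ n := (le_max_right _ _).trans ((le_max_left _ _).trans hnn)
  have hn3 : 1 ≤ n := (le_max_right _ _).trans hnn
  have hn3' : (1 : ℝ) ≤ n := by exact_mod_cast hn3
  have hz1 : (n : ℝ) ^ (1 / ((max t T : ℕ) : ℝ)) ≤ (n : ℝ) ^ (1 / (T : ℝ)) := by
    apply Real.rpow_le_rpow_of_exponent_le hn3'
    apply one_div_le_one_div_of_le (by exact_mod_cast hT)
    exact_mod_cast le_max_right _ _
  have hz2 : (n : ℝ) ^ (1 / ((max t T : ℕ) : ℝ)) ≤ (n : ℝ) ^ (1 / (t : ℝ)) := by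
    apply Real.rpow_le_rpow_of_exponent_le hn3'
    apply one_div_le_one_div_of_le (by exact_mod_cast ht)
    exact_mod_cast le_max_left _ _
  have hcard : ((NQX.RR n D ((n : ℝ) ^ (1 / (T : ℝ)))).card : ℝ) ≤ (NQX.RR n D ((n : ℝ) ^ (1 / ((max t T : ℕ) : ℝ)))).card := by
    exact_mod_cast Finset.card_le_card (RR_le n D hz1)
  refine hcard.trans ?_
  by_cases hfull : ∃ l : ℕ, l.Prime ∧ l ≠ 2 ∧ BE D n l = Gl n l
  · obtain ⟨l, hl, hl2, hle⟩ := hfull
    have h2 := full_small n D k hD l hl hl2 hle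
    have h3 : (l : ℝ) ≤ (n : ℝ) ^ (1 / ((max t T : ℕ) : ℝ)) := by
      refine le_trans ?_ (hn1 n hn1')
      exact_mod_cast h2
    have h4 : NQX.RR n D ((n : ℝ) ^ (1 / ((max t T : ℕ) : ℝ))) = ∅ := by
      rw [Finset.eq_empty_iff_forall_notMem]
      intro X hX
      have h5 := NQX.RR_sub_Cnd n D _ hX
      rw [mem_Cnd] at h5
      apply h5.2 l hl hl2 h3
      rw [hle]
      have hX1 := (mem_preps n X).1 h5.1
      exact red_mem n l hl X hX1.1 hX1.2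
    rw [h4, Finset.card_empty, Nat.cast_zero]
    have := VE_nonneg n D
    positivity
  · push Not at hfull
    have h1 := (h n hn hn0 ∅ (fun _ => ∅) (fun l => BE D n l) (by simp) (by
      simp only [Finset.prod_empty, Nat.cast_one]
      exact Real.one_le_rpow (by exact_mod_cast hn3) htR.le) (by
      intro l hl hl2 _
      refine ⟨BE_sub D n l, hfull l hl hl2, ?_⟩
      have h2 := (card_BE D n l hl hl2).trans (Nat.mul_le_mul_right _ hD)
      calc _ ≤ 2 * k * (4 * l ^ 2) := h2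
        _ = 8 * k * l ^ 2 := by ring) ((n : ℝ) ^ (1 / ((max t T : ℕ) : ℝ))) le_rfl hz2).2
    rw [Mn_eq] at h1
    refine le_trans ?_ h1
    exact_mod_cast Finset.card_le_card (NQX.RR_sub_Cnd n D _)

/-- the general theorem -/
theorem general (k g : ℕ) : ∃ t : ℕ, 1 ≤ t ∧ ∃ c : ℝ, 0 < c ∧ ∃ ν : ℝ, 0 < ν ∧ ∃ n₀ : ℕ, ∀ n : ℕ, Odd n → n₀ ≤ n →
    ∀ E : Finset ℤ, E.card ≤ k → (∀ e ∈ E, Even e ∧ |e| ≤ n) →
    (∀ l : ℕ, l.Prime → l ≠ 2 → ∃ a ∈ Gl n l, ∀ e ∈ E, ¬ (l : ℤ) ∣ pf a + e) → ∀ F : Fin g → Finset ℤ,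
    (∀ γ, (F γ).Nonempty ∧ (F γ).card ≤ k ∧ (∀ f ∈ F γ, |f| ≤ n) ∧ ∀ l : ℕ, l.Prime → l ≠ 2 → ∃ r : ℤ, ∀ f ∈ F γ, ¬ (l : ℤ) ∣ r + f) →
    ∀ L : Fin g → ℝ, (∀ γ, 0 ≤ L γ ∧ L γ ≤ n ∧ L γ * VO n (F γ) ≤ ν) →
      c * ((preps n).card * VE n E) ≤ ((Isolated n E ((n : ℝ) ^ (1 / (t : ℝ))) L F).ncard : ℝ) ∧
      c * ((AlmostPrimes n E ((n : ℝ) ^ (1 / (t : ℝ)))).ncard : ℝ) ≤ ((Isolated n E ((n : ℝ) ^ (1 / (t : ℝ))) L F).ncard : ℝ) := by
  obtain ⟨t, ht, c, hc, ν, hν, n1, h1⟩ := nqC k g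
  obtain ⟨C, hC, n2, h2⟩ := upper k t ht
  refine ⟨t, ht, min c (c / C), by positivity, ν, hν, max n1 n2, ?_⟩
  intro n hn hnn E hE hE2 hE3 F hF L hL
  have a1 := h1 n hn ((le_max_left _ _).trans hnn) E hE hE2 hE3 F hF L hL
  have a2 := h2 n hn ((le_max_right _ _).trans hnn) E (by omega)
  rw [ncard_NQ, ncard_RR]
  have hV := VE_nonneg n E
  constructor
  · refine le_trans ?_ a1
    exact mul_le_mul_of_nonneg_right (min_le_left _ _) (by positivity)
  · refine le_trans ?_ a1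
    calc min c (c / C) * ((NQX.RR n E ((n : ℝ) ^ (1 / (t : ℝ)))).card : ℝ)
        ≤ c / C * (C * ((preps n).card * VE n E)) := by
          apply mul_le_mul (min_le_right _ _) a2 (by positivity) (by positivity)
      _ = c * ((preps n).card * VE n E) := by field_simp

theorem adm0 (l : ℕ) (hl : l.Prime) : ∃ r : ℤ, ∀ f ∈ ({0} : Finset ℤ), ¬ (l : ℤ) ∣ r + f := by
  refine ⟨1, fun f hf => ?_⟩
  rw [Finset.mem_singleton] at hf
  subst hf
  intro h
  have h1 : (l : ℤ) ≤ 1 := Int.le_of_dvd (by norm_num) (by simpa using h)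
  have h2 := hl.two_le
  omega

theorem adm2 (l : ℕ) (hl : l.Prime) (hl2 : l ≠ 2) : ∃ r : ℤ, ∀ f ∈ ({0, -2} : Finset ℤ), ¬ (l : ℤ) ∣ r + f := by
  refine ⟨1, fun f hf => ?_⟩
  have h2 := hl.two_le
  rw [Finset.mem_insert, Finset.mem_singleton] at hf
  rcases hf with rfl | rfl
  · intro h
    have h1 : (l : ℤ) ≤ 1 := Int.le_of_dvd (by norm_num) (by simpa using h)
    omega
  · intro h
    have h3 : (l : ℤ) ∣ 1 := by
      have h4 := (dvd_neg (a := (l : ℤ))).2 h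
      norm_num at h4
      have : (l : ℤ) ∣ 1 := by exact_mod_cast h4
      exact this
    have h1 : (l : ℤ) ≤ 1 := Int.le_of_dvd (by norm_num) h3
    omega

theorem oF_pair (l : ℕ) (hl : l.Prime) (hl2 : l ≠ 2) : oF {0, -2} l = 2 := by
  classical
  unfold oF
  rw [Finset.image_insert, Finset.image_singleton, Finset.card_pair]
  intro h
  have h1 : (0 : ℤ) ≡ -2 [ZMOD l] := h
  have h2 := h1.symm.dvd
  have h3 : (l : ℤ) ∣ 2 := by simpa using h2
  have h4 : l ∣ 2 := by exact_mod_cast h3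
  exact hl2 ((Nat.prime_dvd_prime_iff_eq hl Nat.prime_two).1 h4)

theorem oF_one (l : ℕ) : oF {0} l = 1 := by
  classical
  unfold oF
  rw [Finset.image_singleton, Finset.card_singleton]

theorem VO_pair (n : ℕ) : VO n {0, -2} ≤ VO n {0} ^ 2 := by
  unfold VO
  rw [← Finset.prod_pow]
  apply Finset.prod_le_prod
  · intro l hl
    rw [Finset.mem_filter, Finset.mem_Icc] at hl
    rw [oF_pair l hl.2 (by omega)]
    have h1 : (3 : ℝ) ≤ l := by exact_mod_cast hl.1.1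
    have h2 : ((2 : ℕ) : ℝ) / l ≤ 1 := by
      rw [div_le_one (by linarith)]
      push_cast
      linarith
    linarith
  · intro l hl
    rw [Finset.mem_filter, Finset.mem_Icc] at hl
    rw [oF_pair l hl.2 (by omega), oF_one]
    have h1 : (3 : ℝ) ≤ l := by exact_mod_cast hl.1.1
    have h2 : (1 - ((1 : ℕ) : ℝ) / l) ^ 2 = 1 - ((2 : ℕ) : ℝ) / l + 1 / (l : ℝ) ^ 2 := by
      push_cast
      field_simp
      ring
    rw [h2]
    have : 0 ≤ 1 / (l : ℝ) ^ 2 := by positivity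
    linarith

/-- the pair of the question -/
theorem pair : ∃ t : ℕ, 1 ≤ t ∧ ∃ c : ℝ, 0 < c ∧ ∃ ν : ℝ, 0 < ν ∧ ∀ ε : ℝ, 0 < ε → ∃ n₀ : ℕ, ∀ n : ℕ, Odd n → n₀ ≤ n →
    (n : ℝ) ^ (1 - ε) ≤ ((IsoPair n ((n : ℝ) ^ (1 / (t : ℝ))) (ν * Real.log n) (ν * Real.log n ^ 2)).ncard : ℝ) ∧
    c * ((AlmostPrimes n {0, -2} ((n : ℝ) ^ (1 / (t : ℝ)))).ncard : ℝ) ≤
      ((IsoPair n ((n : ℝ) ^ (1 / (t : ℝ))) (ν * Real.log n) (ν * Real.log n ^ 2)).ncard : ℝ) := by
  obtain ⟨t, ht, c, hc, ν, hν, n1, h1⟩ := general 2 2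
  obtain ⟨C, hC, hVO⟩ := NQX.VO_up
  set ν' : ℝ := min (ν / C) (ν / C ^ 2) with hν'
  have hν'0 : 0 < ν' := by positivity
  refine ⟨t, ht, c, hc, ν', hν'0, fun ε hε => ?_⟩
  obtain ⟨c1, hc1, hpl⟩ := preps_lower (ε / 2) (by positivity)
  obtain ⟨n2, h2⟩ := velC 2
  have e1 : ∀ᶠ x : ℝ in atTop, Real.log x ^ 3 ≤ c * c1 * x ^ (ε / 2) := by
    have h3 := isLittleO_log_rpow_atTop (show (0 : ℝ) < ε / 6 by positivity)
    have hcc : 0 < (c * c1) ^ (1 / 3 : ℝ) := by positivity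
    filter_upwards [h3.bound hcc, eventually_gt_atTop (1 : ℝ)] with x a1 a2
    have b1 : 0 ≤ Real.log x := Real.log_nonneg a2.le
    have b2 : (0 : ℝ) ≤ x ^ (ε / 6) := by positivity
    rw [Real.norm_of_nonneg b1, Real.norm_of_nonneg b2] at a1
    calc Real.log x ^ 3 ≤ ((c * c1) ^ (1 / 3 : ℝ) * x ^ (ε / 6)) ^ 3 := pow_le_pow_left₀ b1 a1 3
      _ = c * c1 * x ^ (ε / 2) := by
        rw [mul_pow, ← Real.rpow_natCast, ← Real.rpow_natCast, ← Real.rpow_mul (by positivity), ← Real.rpow_mul (by linarith)]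
        norm_num
        left
        congr 1
        ring
  have e2 : ∀ᶠ x : ℝ in atTop, ν' * Real.log x ^ 2 ≤ x ∧ ν' * Real.log x ≤ x ∧ 1 < Real.log x := by
    have h3 := isLittleO_log_rpow_atTop (show (0 : ℝ) < 1 / 4 by norm_num)
    have h4 : Tendsto (fun x : ℝ => x ^ (1 / 2 : ℝ)) atTop atTop := tendsto_rpow_atTop (by norm_num)
    filter_upwards [h3.bound (show (0 : ℝ) < 1 by norm_num), h4.eventually_ge_atTop ν', eventually_gt_atTop (1 : ℝ),
      Real.tendsto_log_atTop.eventually_gt_atTop 1] with x a1 a2 a3 a4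
    have b1 : 0 ≤ Real.log x := Real.log_nonneg a3.le
    have b2 : (0 : ℝ) ≤ x ^ (1 / 4 : ℝ) := by positivity
    rw [Real.norm_of_nonneg b1, Real.norm_of_nonneg b2, one_mul] at a1
    have b3 : Real.log x ^ 2 ≤ x ^ (1 / 2 : ℝ) := by
      calc Real.log x ^ 2 ≤ (x ^ (1 / 4 : ℝ)) ^ 2 := pow_le_pow_left₀ b1 a1 2
        _ = _ := by
          rw [← Real.rpow_natCast, ← Real.rpow_mul (by linarith)]
          norm_num
    have b4 : x ^ (1 / 2 : ℝ) * x ^ (1 / 2 : ℝ) = x := by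
      rw [← Real.rpow_add (by linarith)]
      norm_num
    have b5 : ν' * Real.log x ^ 2 ≤ x := by
      calc ν' * Real.log x ^ 2 ≤ x ^ (1 / 2 : ℝ) * x ^ (1 / 2 : ℝ) := mul_le_mul a2 b3 (by positivity) (by positivity)
        _ = x := b4
    refine ⟨b5, le_trans ?_ b5, a4⟩
    apply mul_le_mul_of_nonneg_left _ hν'0.le
    nlinarith
  obtain ⟨x₀, hx₀⟩ := eventually_atTop.1 (e1.and e2)
  refine ⟨max (max n1 n2) (max 2 ⌈x₀⌉₊), fun n hn hnn => ?_⟩
  have hn1 : n1 ≤ n := (le_max_left _ _).trans ((le_max_left _ _).trans hnn)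
  have hn2 : n2 ≤ n := (le_max_right _ _).trans ((le_max_left _ _).trans hnn)
  have hn3 : 2 ≤ n := (le_max_left _ _).trans ((le_max_right _ _).trans hnn)
  have hn4 : ⌈x₀⌉₊ ≤ n := (le_max_right _ _).trans ((le_max_right _ _).trans hnn)
  obtain ⟨b1, b2, b3, b4⟩ := hx₀ n (Nat.ceil_le.1 hn4)
  have hn0 : (0 : ℝ) < n := by
    have : 0 < n := by omega
    exact_mod_cast this
  have hlog : 0 < Real.log n := by linarith
  have hloc : ∀ l : ℕ, l.Prime → l ≠ 2 → ∃ a ∈ Gl n l, ∀ e ∈ ({0, -2} : Finset ℤ), ¬ (l : ℤ) ∣ pf a + e := by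
    intro l hl hl2
    obtain ⟨a, ha, hff⟩ := local_ff l hl hl2 n
    refine ⟨a, ha, fun e he hd => hff ?_⟩
    unfold ff
    rw [Finset.mem_insert, Finset.mem_singleton] at he
    rcases he with rfl | rfl
    · rw [add_zero] at hd
      exact hd.mul_right _
    · exact Dvd.dvd.mul_left hd _
  have hVO0 : VO n {0} ≤ C / Real.log n := hVO n hn3 {0} (Finset.singleton_nonempty _) (fun l hl _ => adm0 l hl)
  have hVOn : 0 ≤ VO n {0} := NQX.VO_nonneg n {0} (fun l hl _ => adm0 l hl)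
  have hVO2 : VO n {0, -2} ≤ (C / Real.log n) ^ 2 := (VO_pair n).trans (pow_le_pow_left₀ hVOn hVO0 2)
  have key := h1 n hn hn1 {0, -2} (by simp) (by
    intro e he
    rw [Finset.mem_insert, Finset.mem_singleton] at he
    rcases he with rfl | rfl
    · exact ⟨by norm_num, by simp⟩
    · refine ⟨by decide, ?_⟩
      rw [abs_neg, abs_of_pos (by norm_num)]
      exact_mod_cast hn3) hloc (fun γ => if γ = 0 then {0} else {0, -2}) (by
    intro γ
    by_cases hγ : γ = 0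
    · simp only [hγ, if_true]
      refine ⟨Finset.singleton_nonempty _, by simp, ?_, fun l hl _ => adm0 l hl⟩
      intro f hf
      rw [Finset.mem_singleton] at hf
      subst hf
      simp
    · simp only [hγ, if_false]
      refine ⟨⟨0, by simp⟩, by simp, ?_, fun l hl hl2 => adm2 l hl hl2⟩
      intro f hf
      rw [Finset.mem_insert, Finset.mem_singleton] at hf
      rcases hf with rfl | rfl
      · simp
      · rw [abs_neg, abs_of_pos (by norm_num)]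
        exact_mod_cast hn3) (fun γ => if γ = 0 then ν' * Real.log n else ν' * Real.log n ^ 2) (by
    intro γ
    by_cases hγ : γ = 0
    · simp only [hγ, if_true]
      refine ⟨by positivity, b3, ?_⟩
      calc ν' * Real.log n * VO n {0} ≤ ν / C * Real.log n * (C / Real.log n) := by
            apply mul_le_mul _ hVO0 hVOn (by positivity)
            exact mul_le_mul_of_nonneg_right (min_le_left _ _) hlog.le
        _ = ν := by field_simp
    · simp only [hγ, if_false]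
      refine ⟨by positivity, b2, ?_⟩
      calc ν' * Real.log n ^ 2 * VO n {0, -2} ≤ ν / C ^ 2 * Real.log n ^ 2 * (C / Real.log n) ^ 2 := by
            apply mul_le_mul _ hVO2 (NQX.VO_nonneg n {0, -2} (fun l hl hl2 => adm2 l hl hl2)) (by positivity)
            exact mul_le_mul_of_nonneg_right (min_le_right _ _) (by positivity)
        _ = ν := by field_simp)
  obtain ⟨k1, k2⟩ := key
  have hsub : Isolated n {0, -2} ((n : ℝ) ^ (1 / (t : ℝ))) (fun γ : Fin 2 => if γ = 0 then ν' * Real.log n else ν' * Real.log n ^ 2)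
      (fun γ => if γ = 0 then {0} else {0, -2}) ⊆ IsoPair n ((n : ℝ) ^ (1 / (t : ℝ))) (ν' * Real.log n) (ν' * Real.log n ^ 2) := by
    intro X hX
    obtain ⟨hX1, hX2⟩ := hX
    refine ⟨hX1, ?_, ?_⟩
    · intro s hs hr
      have := hX2 0 s (by simpa using hs) (by
        intro f hf
        simp only [if_true, Finset.mem_singleton] at hf
        subst hf
        rwa [add_zero]) 0 (by simp)
      simpa using this
    · intro s hs hr1 hr2
      have := hX2 1 s (by simpa using hs) (by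
        intro f hf
        simp only [Fin.isValue, one_ne_zero, if_false, Finset.mem_insert, Finset.mem_singleton] at hf
        rcases hf with rfl | rfl
        · rwa [add_zero]
        · rwa [← sub_eq_add_neg])
      have a1 := this 0 (by simp)
      have a2 := this (-2) (by simp)
      rw [Finset.mem_insert, Finset.mem_singleton] at a1 a2
      omega
  have hfin : (IsoPair n ((n : ℝ) ^ (1 / (t : ℝ))) (ν' * Real.log n) (ν' * Real.log n ^ 2)).Finite := by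
    apply ((reps n).finite_toSet).subset
    intro X hX
    rw [mem_coe, mem_reps]
    exact hX.1.1
  have hcard : ((Isolated n {0, -2} ((n : ℝ) ^ (1 / (t : ℝ))) (fun γ : Fin 2 => if γ = 0 then ν' * Real.log n else ν' * Real.log n ^ 2)
      (fun γ => if γ = 0 then {0} else {0, -2})).ncard : ℝ) ≤
        ((IsoPair n ((n : ℝ) ^ (1 / (t : ℝ))) (ν' * Real.log n) (ν' * Real.log n ^ 2)).ncard : ℝ) := by
    exact_mod_cast Set.ncard_le_ncard hsub hfin
  refine ⟨?_, k2.trans hcard⟩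
  refine le_trans ?_ (k1.trans hcard)
  have hv := h2 n hn hn2 {0, -2} (by simp) hloc
  have hp := hpl n hn
  have h5 : (n : ℝ) ^ (1 - ε) * (n : ℝ) ^ (ε / 2) = (n : ℝ) ^ (1 - ε / 2) := by
    rw [← Real.rpow_add hn0]
    congr 1
    ring
  have h6 : 0 < (n : ℝ) ^ (1 - ε) := Real.rpow_pos_of_pos hn0 _
  have h7 : 1 / Real.log n ^ 3 ≤ VE n {0, -2} := by simpa using hv
  calc (n : ℝ) ^ (1 - ε) = (n : ℝ) ^ (1 - ε) * Real.log n ^ 3 * (1 / Real.log n ^ 3) := by field_simp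
    _ ≤ (n : ℝ) ^ (1 - ε) * (c * c1 * (n : ℝ) ^ (ε / 2)) * (1 / Real.log n ^ 3) := by
        apply mul_le_mul_of_nonneg_right _ (by positivity)
        exact mul_le_mul_of_nonneg_left b1 h6.le
    _ = c * ((c1 * (n : ℝ) ^ (1 - ε / 2)) * (1 / Real.log n ^ 3)) := by
        rw [← h5]
        ring
    _ ≤ c * ((preps n).card * VE n {0, -2}) := by
        apply mul_le_mul_of_nonneg_left _ hc.le
        exact mul_le_mul hp h7 (by positivity) (by positivity)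

theorem result :
    (∃ t : ℕ, 1 ≤ t ∧ ∃ c : ℝ, 0 < c ∧ ∃ ν : ℝ, 0 < ν ∧ ∀ ε : ℝ, 0 < ε → ∃ n₀ : ℕ, ∀ n : ℕ, Odd n → n₀ ≤ n →
      (n : ℝ) ^ (1 - ε) ≤ ((IsoPair n ((n : ℝ) ^ (1 / (t : ℝ))) (ν * Real.log n) (ν * Real.log n ^ 2)).ncard : ℝ) ∧
      c * ((AlmostPrimes n {0, -2} ((n : ℝ) ^ (1 / (t : ℝ)))).ncard : ℝ) ≤
        ((IsoPair n ((n : ℝ) ^ (1 / (t : ℝ))) (ν * Real.log n) (ν * Real.log n ^ 2)).ncard : ℝ)) ∧
    ∀ k g : ℕ, ∃ t : ℕ, 1 ≤ t ∧ ∃ c : ℝ, 0 < c ∧ ∃ ν : ℝ, 0 < ν ∧ ∃ n₀ : ℕ, ∀ n : ℕ, Odd n → n₀ ≤ n →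
      ∀ E : Finset ℤ, E.card ≤ k → (∀ e ∈ E, Even e ∧ |e| ≤ n) →
      (∀ l : ℕ, l.Prime → l ≠ 2 → ∃ a ∈ Gl n l, ∀ e ∈ E, ¬ (l : ℤ) ∣ pf a + e) → ∀ F : Fin g → Finset ℤ,
      (∀ γ, (F γ).Nonempty ∧ (F γ).card ≤ k ∧ (∀ f ∈ F γ, |f| ≤ n) ∧ ∀ l : ℕ, l.Prime → l ≠ 2 → ∃ r : ℤ, ∀ f ∈ F γ, ¬ (l : ℤ) ∣ r + f) →
      ∀ L : Fin g → ℝ, (∀ γ, 0 ≤ L γ ∧ L γ ≤ n ∧ L γ * VO n (F γ) ≤ ν) →
        c * ((preps n).card * VE n E) ≤ ((Isolated n E ((n : ℝ) ^ (1 / (t : ℝ))) L F).ncard : ℝ) ∧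
        c * ((AlmostPrimes n E ((n : ℝ) ^ (1 / (t : ℝ)))).ncard : ℝ) ≤ ((Isolated n E ((n : ℝ) ^ (1 / (t : ℝ))) L F).ncard : ℝ) :=
  ⟨pair, general⟩

end Pool.Agent.Results.MP_0ad054_nt.IsolatedPairs
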