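import Pool.Agent.Q117.FQ.All

/-!
# MP_0ad054_nt: representations in prescribed residue classes, for every odd `n`

For every large odd `n` and every squarefree odd modulus `q ≤ n ^ (1 / t)`: every class `a` modulo `q` of vectors on the sphere for which this is possible
contains at least `n ^ (1 - ε) / q ^ 3` representations `n = x² + y² + z² + w²` with `p = x² + 3 y² + 5 z² + 7 w²` and `p - 2` rough, and every class `b`
modulo `q` for which this is possible contains `p` for at least `n ^ (1 - ε) / q` of them. In general, for prescribed sets of classes modulo the prime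
factors of `q` and for an arbitrary set of shifts, the number of the representations has the expected order of magnitude.
-/

set_option autoImplicit false

namespace Pool.Agent.Results.MP_0ad054_nt.PrescribedClasses

open Finset Filter
open Pool.Agent.W65.FS
open Pool.Agent.Q117.LF (GN oF Ro)
open Pool.Agent.Q117.FQ
open Pool.Agent.Q117.FQ.LOC

/-- the primitive representations of `n` with classes in `S l` modulo the `l ∈ P` and all the `p + e`, `e ∈ E`, without prime factors `≤ z` -/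
def Reps (n : ℕ) (P : Finset ℕ) (S : ℕ → Finset (Fin 4 → ℤ)) (E : Finset ℤ) (z : ℝ) : Set (Fin 4 → ℤ) :=
  {X | ∑ i, X i ^ 2 = n ∧ gc X = 1 ∧ (∀ l ∈ P, red l X ∈ S l) ∧ ∀ e ∈ E, Ro z (pf X + e)}

/-- the expected number of these representations -/
noncomputable def Expected (n : ℕ) (P : Finset ℕ) (S : ℕ → Finset (Fin 4 → ℤ)) (E : Finset ℤ) : ℝ :=
  ((preps n).card : ℝ) * (∏ l ∈ P, ((S l).card : ℝ) / (Gl n l).card) *
    ∏ l ∈ (Icc 3 n).filter (fun l => l.Prime ∧ l ∉ P), (1 - ((BE E n l).card : ℝ) / (Gl n l).card)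

/-- the primitive representations congruent to `a` modulo `q` with `p`, `p - 2` without prime factors `≤ z` -/
def InClass (n q : ℕ) (a : Fin 4 → ℤ) (z : ℝ) : Set (Fin 4 → ℤ) :=
  {X | ∑ i, X i ^ 2 = n ∧ gc X = 1 ∧ (∀ i, (q : ℤ) ∣ X i - a i) ∧ Ro z (pf X) ∧ Ro z (pf X - 2)}

/-- the primitive representations with `p` congruent to `b` modulo `q` and `p`, `p - 2` without prime factors `≤ z` -/
def ValueInClass (n q : ℕ) (b : ℤ) (z : ℝ) : Set (Fin 4 → ℤ) :=
  {X | ∑ i, X i ^ 2 = n ∧ gc X = 1 ∧ (q : ℤ) ∣ pf X - b ∧ Ro z (pf X) ∧ Ro z (pf X - 2)}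

theorem coe_Cnd (n : ℕ) (hn : Odd n) (P : Finset ℕ) (S : ℕ → Finset (Fin 4 → ℤ)) (E : Finset ℤ) (z : ℝ) (hE : ∀ e ∈ E, Even e)
    (hS : ∀ l ∈ P, l.Prime ∧ l ≠ 2 ∧ ∀ a ∈ S l, ∀ e ∈ E, ¬ (l : ℤ) ∣ pf a + e) (hP : ∀ l ∈ P, (l : ℝ) ≤ z) :
    ((Cnd n P S (fun l => BE E n l) z : Finset (Fin 4 → ℤ)) : Set (Fin 4 → ℤ)) = Reps n P S E z := by
  classical
  ext X
  rw [mem_coe]
  unfold Cnd Reps
  rw [Finset.mem_filter, NQX.mem_preps]
  constructor
  · rintro ⟨⟨h1, h2⟩, h3, h4⟩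
    refine ⟨h1, h2, h3, fun e he l hl hd => ?_⟩
    by_cases hl2 : l = 2
    · exfalso
      subst hl2
      apply pf_odd n hn X h1
      have a1 : (2 : ℤ) ∣ e := (hE e he).two_dvd
      have a2 : (2 : ℤ) ∣ pf X + e := by exact_mod_cast hd
      have := dvd_sub a2 a1
      have e1 : pf X + e - e = pf X := by ring
      rwa [e1] at this
    · by_cases hlP : l ∈ P
      · exfalso
        exact (hS l hlP).2.2 _ (h3 l hlP) e he ((NQX.dvd_red l X e).1 hd)
      · by_contra hcon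
        push Not at hcon
        apply h4 l hl hl2 hlP hcon
        rw [mem_BE]
        exact ⟨red_mem n l hl X h1 h2, e, he, (NQX.dvd_red l X e).1 hd⟩
  · rintro ⟨h1, h2, h3, h4⟩
    refine ⟨⟨h1, h2⟩, h3, fun l hl hl2 _ hlz hmem => ?_⟩
    obtain ⟨_, e, he, hd⟩ := (mem_BE E n l _).1 hmem
    have := h4 e he l hl ((NQX.dvd_red l X e).2 hd)
    linarith

/-- both bounds -/
theorem both (k : ℕ) : ∃ t : ℕ, 1 ≤ t ∧ ∃ c : ℝ, 0 < c ∧ ∃ C : ℝ, 0 < C ∧ ∃ n₀ : ℕ, ∀ n : ℕ, Odd n → n₀ ≤ n →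
    ∀ E : Finset ℤ, E.card ≤ k → (∀ e ∈ E, Even e) → ∀ (P : Finset ℕ) (S : ℕ → Finset (Fin 4 → ℤ)),
    (∀ l ∈ P, l.Prime ∧ l ≠ 2 ∧ S l ⊆ Gl n l ∧ (S l).Nonempty ∧ ∀ a ∈ S l, ∀ e ∈ E, ¬ (l : ℤ) ∣ pf a + e) →
    ((∏ l ∈ P, l : ℕ) : ℝ) ≤ (n : ℝ) ^ (1 / (t : ℝ)) →
    (∀ l : ℕ, l.Prime → l ≠ 2 → l ∉ P → ∃ a ∈ Gl n l, ∀ e ∈ E, ¬ (l : ℤ) ∣ pf a + e) →
      c * Expected n P S E ≤ ((Reps n P S E ((n : ℝ) ^ (1 / (t : ℝ)))).ncard : ℝ) ∧
      ((Reps n P S E ((n : ℝ) ^ (1 / (t : ℝ)))).ncard : ℝ) ≤ C * Expected n P S E := by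
  classical
  obtain ⟨t, ht, h⟩ := gsC (4 * k)
  obtain ⟨c, hc, C, hC, n0, h⟩ := h t le_rfl
  refine ⟨t, ht, c, hc, C, hC, max n0 1, fun n hn hnn E hE hEe P S hPS hq hloc => ?_⟩
  have hn0 : n0 ≤ n := (le_max_left _ _).trans hnn
  have hn3 : 1 ≤ n := (le_max_right _ _).trans hnn
  have hP : ∀ l ∈ P, (l : ℝ) ≤ (n : ℝ) ^ (1 / (t : ℝ)) := by
    intro l hl
    refine le_trans ?_ hq
    have h1 : l ≤ ∏ l ∈ P, l := by
      apply Finset.single_le_prod' (f := fun l : ℕ => l) (fun i hi => (hPS i hi).1.one_lt.le) hl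
    exact_mod_cast h1
  have key := h n hn hn0 P S (fun l => BE E n l) (fun l hl => ⟨(hPS l hl).1, (hPS l hl).2.1, (hPS l hl).2.2.1, (hPS l hl).2.2.2.1⟩) hq (by
      intro l hl hl2 hlP
      refine ⟨BE_sub E n l, ?_, ?_⟩
      · intro heq
        obtain ⟨x, hx, hx2⟩ := hloc l hl hl2 hlP
        rw [← heq, mem_BE] at hx
        obtain ⟨_, e, he, hd⟩ := hx
        exact hx2 e he hd
      · have h2 := (card_BE E n l hl hl2).trans (Nat.mul_le_mul_right _ hE)
        calc _ ≤ k * (4 * l ^ 2) := h2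
          _ = 4 * k * l ^ 2 := by ring) ((n : ℝ) ^ (1 / (t : ℝ))) le_rfl le_rfl
  have e1 : (Reps n P S E ((n : ℝ) ^ (1 / (t : ℝ)))).ncard = (Cnd n P S (fun l => BE E n l) ((n : ℝ) ^ (1 / (t : ℝ)))).card := by
    rw [← coe_Cnd n hn P S E _ hEe (fun l hl => ⟨(hPS l hl).1, (hPS l hl).2.1, (hPS l hl).2.2.2.2⟩) hP, Set.ncard_coe_finset]
  have e2 : Expected n P S E = Mn n P S (fun l => BE E n l) := by
    unfold Expected Mn
    congr 2
  rw [e1, e2]
  exact key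

/-- a product over the prime factors is not much smaller than expected -/
theorem prod_small (δ : ℝ) (hδ : 0 < δ) : ∃ c : ℝ, 0 < c ∧ ∀ (q : ℕ) (h : ℕ → ℝ), Squarefree q →
    (∀ l ∈ q.primeFactors, 1 / 56 ≤ h l ∧ (7 < l → 1 - 7 / (l : ℝ) ≤ h l)) → c * (q : ℝ) ^ (-δ) ≤ ∏ l ∈ q.primeFactors, h l := by
  have e1 : ∀ᶠ x : ℝ in atTop, x ^ (-δ) ≤ 1 - 7 / x := by
    have h1 : Tendsto (fun x : ℝ => x ^ (-δ)) atTop (nhds 0) := tendsto_rpow_neg_atTop hδ
    filter_upwards [h1.eventually_le_const (show (0 : ℝ) < 1 / 2 by norm_num), eventually_ge_atTop (14 : ℝ)] with x a1 a2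
    have : 7 / x ≤ 1 / 2 := by
      rw [div_le_iff₀ (by linarith)]
      linarith
    linarith
  obtain ⟨x₀, hx₀⟩ := eventually_atTop.1 e1
  set M : ℕ := max ⌈x₀⌉₊ 7 with hM
  refine ⟨(1 / 56 : ℝ) ^ (M + 1), by positivity, fun q h hq hh => ?_⟩
  have h1 : (q : ℝ) ^ (-δ) = ∏ l ∈ q.primeFactors, (l : ℝ) ^ (-δ) := by
    conv_lhs => rw [← Nat.prod_primeFactors_of_squarefree hq]
    push_cast
    rw [Real.finsetProd_rpow _ _ (fun i _ => by positivity)]
  have h2 : (1 / 56 : ℝ) ^ (M + 1) ≤ ∏ l ∈ q.primeFactors, (if l ≤ M then (1 / 56 : ℝ) else 1) := by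
    rw [Finset.prod_ite, Finset.prod_const_one, mul_one, Finset.prod_const]
    apply pow_le_pow_of_le_one (by norm_num) (by norm_num)
    calc (q.primeFactors.filter (fun l => l ≤ M)).card ≤ (Finset.range (M + 1)).card := by
          apply Finset.card_le_card
          intro l hl
          rw [Finset.mem_filter] at hl
          rw [Finset.mem_range]
          omega
      _ = M + 1 := Finset.card_range _
  have h3 : 0 ≤ (q : ℝ) ^ (-δ) := by positivity
  calc (1 / 56 : ℝ) ^ (M + 1) * (q : ℝ) ^ (-δ)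
      ≤ (∏ l ∈ q.primeFactors, (if l ≤ M then (1 / 56 : ℝ) else 1)) * (q : ℝ) ^ (-δ) := mul_le_mul_of_nonneg_right h2 h3
    _ = ∏ l ∈ q.primeFactors, ((if l ≤ M then (1 / 56 : ℝ) else 1) * (l : ℝ) ^ (-δ)) := by rw [h1, Finset.prod_mul_distrib]
    _ ≤ _ := by
      apply Finset.prod_le_prod
      · intro l _
        split_ifs <;> positivity
      · intro l hl
        have hlp := Nat.prime_of_mem_primeFactors hl
        have hl1 : (1 : ℝ) ≤ l := by exact_mod_cast hlp.one_lt.le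
        obtain ⟨a1, a2⟩ := hh l hl
        by_cases hlM : l ≤ M
        · rw [if_pos hlM]
          have : (l : ℝ) ^ (-δ) ≤ 1 := Real.rpow_le_one_of_one_le_of_nonpos hl1 (by linarith)
          nlinarith
        · rw [if_neg hlM, one_mul]
          have h7 : 7 < l := by omega
          have hx : x₀ ≤ l := by
            have b1 : ⌈x₀⌉₊ ≤ l := by omega
            exact Nat.ceil_le.1 b1
          exact (hx₀ l hx).trans (a2 h7)

theorem num1 (l s G : ℝ) (hl : 3 ≤ l) (hs : 1 ≤ s) (hs2 : 7 < l → l ^ 2 - 6 * l ≤ s) (hs7 : l = 7 → 7 ≤ s) (h5 : l ≤ 7 → l = 3 ∨ l = 5 ∨ l = 7) (hG : G ≤ l ^ 3 + l ^ 2) (hG0 : 0 < G) :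
    1 / 56 ≤ l * (s / G) ∧ (7 < l → 1 - 7 / l ≤ l * (s / G)) := by
  have hl0 : 0 < l := by linarith
  have key : 7 < l → 1 - 7 / l ≤ l * (s / G) := by
    intro h7
    have h1 := hs2 h7
    have h2 : (1 - 7 / l) * G ≤ l * s := by
      have a1 : 0 ≤ 1 - 7 / l := by
        rw [sub_nonneg, div_le_one hl0]
        exact h7.le
      calc (1 - 7 / l) * G ≤ (1 - 7 / l) * (l ^ 3 + l ^ 2) := mul_le_mul_of_nonneg_left hG a1
        _ = (l - 7) * (l ^ 2 + l) := by field_simp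
        _ ≤ l * (l ^ 2 - 6 * l) := by nlinarith
        _ ≤ l * s := mul_le_mul_of_nonneg_left h1 hl0.le
    have h3 : l * (s / G) = l * s / G := by ring
    rw [h3, le_div_iff₀ hG0]
    exact h2
  refine ⟨?_, key⟩
  by_cases h7 : 7 < l
  · have h1 := hs2 h7
    have h3 : l * (s / G) = l * s / G := by ring
    rw [h3, le_div_iff₀ hG0]
    have h4 : l * (l ^ 2 - 6 * l) ≤ l * s := mul_le_mul_of_nonneg_left h1 hl0.le
    nlinarith [mul_pos hl0 hl0, mul_pos (mul_pos hl0 hl0) (sub_pos.2 h7)]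
  · have h3 : l * (s / G) = l * s / G := by ring
    rw [h3, le_div_iff₀ hG0]
    rcases h5 (not_lt.1 h7) with rfl | rfl | rfl
    · norm_num at hG ⊢
      linarith
    · norm_num at hG ⊢
      linarith
    · have := hs7 rfl
      norm_num at hG ⊢
      linarith

theorem expected_low (n : ℕ) (P : Finset ℕ) (S : ℕ → Finset (Fin 4 → ℤ)) (E : Finset ℤ) :
    ((preps n).card : ℝ) * (∏ l ∈ P, ((S l).card : ℝ) / (Gl n l).card) * VE n E ≤ Expected n P S E := by
  classical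
  unfold Expected
  apply mul_le_mul_of_nonneg_left _ (by positivity)
  unfold VE
  have h1 : (Icc 3 n).filter (fun l => l.Prime ∧ l ∉ P) ⊆ (Icc 3 n).filter Nat.Prime := by
    intro l hl
    rw [Finset.mem_filter] at hl ⊢
    exact ⟨hl.1, hl.2.1⟩
  rw [← Finset.prod_sdiff h1]
  have h2 : ∏ x ∈ (Icc 3 n).filter Nat.Prime \ (Icc 3 n).filter (fun l => l.Prime ∧ l ∉ P), (1 - gE E n x) ≤ 1 := by
    apply Finset.prod_le_one
    · intro l _
      linarith [gE_le_one E n l]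
    · intro l _
      linarith [gE_nonneg E n l]
  have h3 : 0 ≤ ∏ x ∈ (Icc 3 n).filter (fun l => l.Prime ∧ l ∉ P), (1 - gE E n x) := by
    apply Finset.prod_nonneg
    intro l _
    linarith [gE_le_one E n l]
  calc _ ≤ 1 * ∏ x ∈ (Icc 3 n).filter (fun l => l.Prime ∧ l ∉ P), (1 - gE E n x) := mul_le_mul_of_nonneg_right h2 h3
    _ = _ := by
      rw [one_mul]
      rfl

theorem loc_pair (n l : ℕ) (hl : l.Prime) (hl2 : l ≠ 2) : ∃ a ∈ Gl n l, ∀ e ∈ ({0, -2} : Finset ℤ), ¬ (l : ℤ) ∣ pf a + e := by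
  obtain ⟨a, ha, hff⟩ := local_ff l hl hl2 n
  refine ⟨a, ha, fun e he hd => hff ?_⟩
  unfold ff
  rw [Finset.mem_insert, Finset.mem_singleton] at he
  rcases he with rfl | rfl
  · rw [add_zero] at hd
    exact hd.mul_right _
  · exact Dvd.dvd.mul_left hd _

/-- the lower bound for the pair, with a product over the prime factors of `q` -/
theorem pair_low : ∃ t : ℕ, 1 ≤ t ∧ ∀ ε : ℝ, 0 < ε → ∃ n₀ : ℕ, ∀ n : ℕ, Odd n → n₀ ≤ n → ∀ (q : ℕ) (S : ℕ → Finset (Fin 4 → ℤ)) (K : ℕ),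
    Odd q → Squarefree q → (q : ℝ) ≤ (n : ℝ) ^ (1 / (t : ℝ)) →
    (∀ l ∈ q.primeFactors, S l ⊆ Gl n l ∧ (S l).Nonempty ∧ ∀ a ∈ S l, ∀ e ∈ ({0, -2} : Finset ℤ), ¬ (l : ℤ) ∣ pf a + e) →
    (∀ l ∈ q.primeFactors, 1 / 56 ≤ (l : ℝ) ^ K * (((S l).card : ℝ) / (Gl n l).card) ∧
      (7 < l → 1 - 7 / (l : ℝ) ≤ (l : ℝ) ^ K * (((S l).card : ℝ) / (Gl n l).card))) →
    (n : ℝ) ^ (1 - ε) / (q : ℝ) ^ K ≤ ((Reps n q.primeFactors S {0, -2} ((n : ℝ) ^ (1 / (t : ℝ)))).ncard : ℝ) := by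
  classical
  obtain ⟨t, ht, c, hc, C, hC, n1, h1⟩ := both 2
  refine ⟨t, ht, fun ε hε => ?_⟩
  obtain ⟨c1, hc1, hpl⟩ := preps_lower (ε / 2) (by positivity)
  obtain ⟨n2, h2⟩ := velC 2
  obtain ⟨c2, hc2, hps⟩ := prod_small (ε / 4) (by positivity)
  have e1 : ∀ᶠ x : ℝ in atTop, Real.log x ^ 3 ≤ c * c1 * c2 * x ^ (ε / 4) := by
    have h3 := isLittleO_log_rpow_atTop (show (0 : ℝ) < ε / 12 by positivity)
    have hcc : 0 < (c * c1 * c2) ^ (1 / 3 : ℝ) := by positivity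
    filter_upwards [h3.bound hcc, eventually_gt_atTop (1 : ℝ)] with x a1 a2
    have b1 : 0 ≤ Real.log x := Real.log_nonneg a2.le
    have b2 : (0 : ℝ) ≤ x ^ (ε / 12) := by positivity
    rw [Real.norm_of_nonneg b1, Real.norm_of_nonneg b2] at a1
    calc Real.log x ^ 3 ≤ ((c * c1 * c2) ^ (1 / 3 : ℝ) * x ^ (ε / 12)) ^ 3 := pow_le_pow_left₀ b1 a1 3
      _ = c * c1 * c2 * x ^ (ε / 4) := by
        rw [mul_pow, ← Real.rpow_natCast, ← Real.rpow_natCast, ← Real.rpow_mul (by positivity), ← Real.rpow_mul (by linarith)]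
        norm_num
        left
        congr 1
        ring
  obtain ⟨x₀, hx₀⟩ := eventually_atTop.1 (e1.and (Real.tendsto_log_atTop.eventually_gt_atTop 0))
  refine ⟨max (max n1 n2) (max 1 ⌈x₀⌉₊), fun n hn hnn q S K hqo hq hqn hS hK => ?_⟩
  have hn1 : n1 ≤ n := (le_max_left _ _).trans ((le_max_left _ _).trans hnn)
  have hn2 : n2 ≤ n := (le_max_right _ _).trans ((le_max_left _ _).trans hnn)
  have hn3 : 1 ≤ n := (le_max_left _ _).trans ((le_max_right _ _).trans hnn)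
  have hn4 : ⌈x₀⌉₊ ≤ n := (le_max_right _ _).trans ((le_max_right _ _).trans hnn)
  obtain ⟨b1, b2⟩ := hx₀ n (Nat.ceil_le.1 hn4)
  have hn0 : (0 : ℝ) < n := by exact_mod_cast hn3
  have hn1' : (1 : ℝ) ≤ n := by exact_mod_cast hn3
  have hq0 : 0 < q := hqo.pos
  have hq0' : (0 : ℝ) < q := by exact_mod_cast hq0
  have hq2 : ∀ l ∈ q.primeFactors, l ≠ 2 := by
    rintro l hl rfl
    exact (Nat.not_even_iff_odd.2 hqo) (even_iff_two_dvd.2 (Nat.dvd_of_mem_primeFactors hl))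
  have key := (h1 n hn hn1 {0, -2} (by simp) (by
    intro e he
    rw [Finset.mem_insert, Finset.mem_singleton] at he
    rcases he with rfl | rfl
    · norm_num
    · decide) q.primeFactors S (fun l hl => ⟨Nat.prime_of_mem_primeFactors hl, hq2 l hl, (hS l hl).1, (hS l hl).2.1, (hS l hl).2.2⟩) (by
    rw [Nat.prod_primeFactors_of_squarefree hq]
    exact hqn) (fun l hl hl2 _ => loc_pair n l hl hl2)).1
  refine le_trans ?_ key
  have hlow := expected_low n q.primeFactors S {0, -2}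
  have hv : 1 / Real.log n ^ 3 ≤ VE n {0, -2} := by
    simpa using h2 n hn hn2 {0, -2} (by simp) (fun l hl hl2 => loc_pair n l hl hl2)
  have hp := hpl n hn
  have hprod : c2 * (q : ℝ) ^ (-(ε / 4)) ≤ (q : ℝ) ^ K * ∏ l ∈ q.primeFactors, ((S l).card : ℝ) / (Gl n l).card := by
    have := hps q (fun l => (l : ℝ) ^ K * (((S l).card : ℝ) / (Gl n l).card)) hq hK
    rw [Finset.prod_mul_distrib, Finset.prod_pow] at this
    have e2 : (∏ l ∈ q.primeFactors, (l : ℝ)) = q := by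
      conv_rhs => rw [← Nat.prod_primeFactors_of_squarefree hq]
      push_cast
      rfl
    rwa [e2] at this
  have hqe : (n : ℝ) ^ (-(ε / 4)) ≤ (q : ℝ) ^ (-(ε / 4)) := by
    apply Real.rpow_le_rpow_of_nonpos hq0' _ (by linarith)
    refine hqn.trans ?_
    calc (n : ℝ) ^ (1 / (t : ℝ)) ≤ (n : ℝ) ^ (1 : ℝ) := by
          apply Real.rpow_le_rpow_of_exponent_le hn1'
          rw [div_le_one (by positivity)]
          exact_mod_cast ht
      _ = n := Real.rpow_one _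
  set Pq : ℝ := ∏ l ∈ q.primeFactors, ((S l).card : ℝ) / (Gl n l).card with hPq
  have h6 : 0 < (n : ℝ) ^ (1 - ε) := Real.rpow_pos_of_pos hn0 _
  have h5 : (n : ℝ) ^ (1 - ε) * (n : ℝ) ^ (ε / 4) = (n : ℝ) ^ (1 - ε / 2) * (n : ℝ) ^ (-(ε / 4)) := by
    rw [← Real.rpow_add hn0, ← Real.rpow_add hn0]
    congr 1
    ring
  have hqK : (0 : ℝ) < (q : ℝ) ^ K := by positivity
  have hPi : c2 * (n : ℝ) ^ (-(ε / 4)) / (q : ℝ) ^ K ≤ Pq := by
    rw [div_le_iff₀ hqK]
    calc c2 * (n : ℝ) ^ (-(ε / 4)) ≤ c2 * (q : ℝ) ^ (-(ε / 4)) := mul_le_mul_of_nonneg_left hqe hc2.le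
      _ ≤ (q : ℝ) ^ K * Pq := hprod
      _ = Pq * (q : ℝ) ^ K := mul_comm _ _
  calc (n : ℝ) ^ (1 - ε) / (q : ℝ) ^ K = (n : ℝ) ^ (1 - ε) * Real.log n ^ 3 * (1 / Real.log n ^ 3) / (q : ℝ) ^ K := by field_simp
    _ ≤ (n : ℝ) ^ (1 - ε) * (c * c1 * c2 * (n : ℝ) ^ (ε / 4)) * (1 / Real.log n ^ 3) / (q : ℝ) ^ K := by
        apply div_le_div_of_nonneg_right _ hqK.le
        apply mul_le_mul_of_nonneg_right _ (by positivity)
        exact mul_le_mul_of_nonneg_left b1 h6.le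
    _ = c * ((c1 * (n : ℝ) ^ (1 - ε / 2)) * (c2 * (n : ℝ) ^ (-(ε / 4)) / (q : ℝ) ^ K) * (1 / Real.log n ^ 3)) := by
        have : (n : ℝ) ^ (1 - ε) * (c * c1 * c2 * (n : ℝ) ^ (ε / 4)) = c * c1 * c2 * ((n : ℝ) ^ (1 - ε) * (n : ℝ) ^ (ε / 4)) := by ring
        rw [this, h5]
        ring
    _ ≤ c * (((preps n).card : ℝ) * Pq * VE n {0, -2}) := by
        apply mul_le_mul_of_nonneg_left _ hc.le
        apply mul_le_mul _ hv (by positivity) (by positivity)
        exact mul_le_mul hp hPi (by positivity) (by positivity)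
    _ ≤ c * Expected n q.primeFactors S {0, -2} := mul_le_mul_of_nonneg_left hlow hc.le

theorem dvd_of_primes (q : ℕ) (hq : Squarefree q) (m : ℤ) (h : ∀ l ∈ q.primeFactors, (l : ℤ) ∣ m) : (q : ℤ) ∣ m := by
  rw [Int.natCast_dvd]
  rw [← Nat.prod_primeFactors_of_squarefree hq]
  apply Finset.prod_primes_dvd
  · intro l hl
    exact (Nat.prime_of_mem_primeFactors hl).prime
  · intro l hl
    exact Int.natCast_dvd.1 (h l hl)

theorem red_congr (l : ℕ) (X a : Fin 4 → ℤ) (h : red l X = red l a) (i : Fin 4) : (l : ℤ) ∣ X i - a i := by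
  have h1 : X i % l = a i % l := congrFun h i
  have h2 : a i ≡ X i [ZMOD l] := h1.symm
  exact h2.dvd

theorem Gl_pos (n l : ℕ) (hl : l.Prime) (hl2 : l ≠ 2) : (0 : ℝ) < ((Gl n l).card : ℝ) := by
  have h1 := count_lower l hl hl2 n
  have h2 := hl.two_le
  have h3 : (3 : ℝ) ≤ l := by
    have : 3 ≤ l := by omega
    exact_mod_cast this
  nlinarith [mul_pos (show (0 : ℝ) < l by linarith) (show (0 : ℝ) < l by linarith)]

theorem pf_not (l : ℕ) (b : ℤ) (h : ¬ (l : ℤ) ∣ b * (b - 2)) : ∀ e ∈ ({0, -2} : Finset ℤ), ¬ (l : ℤ) ∣ b + e := by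
  intro e he hd
  rw [Finset.mem_insert, Finset.mem_singleton] at he
  rcases he with rfl | rfl
  · rw [add_zero] at hd
    exact h (hd.mul_right _)
  · exact h (Dvd.dvd.mul_left hd _)

theorem cop_not (q l : ℕ) (m : ℤ) (hl : l ∈ q.primeFactors) (h : Int.gcd m q = 1) : ¬ (l : ℤ) ∣ m := by
  intro hd
  have hlp := Nat.prime_of_mem_primeFactors hl
  have h1 : (l : ℤ) ∣ (q : ℤ) := by exact_mod_cast Nat.dvd_of_mem_primeFactors hl
  have h2 := Int.dvd_coe_gcd hd h1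
  rw [h] at h2
  have h3 : l ∣ 1 := by exact_mod_cast h2
  exact hlp.one_lt.ne' (Nat.dvd_one.1 h3)

theorem pairs : ∃ t : ℕ, 1 ≤ t ∧ ∀ ε : ℝ, 0 < ε → ∃ n₀ : ℕ, ∀ n : ℕ, Odd n → n₀ ≤ n → ∀ q : ℕ,
    Odd q → Squarefree q → (q : ℝ) ≤ (n : ℝ) ^ (1 / (t : ℝ)) →
    (∀ a : Fin 4 → ℤ, (q : ℤ) ∣ (∑ i, a i ^ 2) - n → (∀ l : ℕ, l.Prime → l ∣ q → ∃ i, ¬ (l : ℤ) ∣ a i) →
      Int.gcd (pf a * (pf a - 2)) q = 1 → (n : ℝ) ^ (1 - ε) / (q : ℝ) ^ 3 ≤ ((InClass n q a ((n : ℝ) ^ (1 / (t : ℝ)))).ncard : ℝ)) ∧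
    (∀ b : ℤ, Int.gcd (b * (b - 2)) q = 1 → (n : ℝ) ^ (1 - ε) / q ≤ ((ValueInClass n q b ((n : ℝ) ^ (1 / (t : ℝ)))).ncard : ℝ)) := by
  classical
  obtain ⟨t, ht, h⟩ := pair_low
  refine ⟨t, ht, fun ε hε => ?_⟩
  obtain ⟨n0, h⟩ := h ε hε
  refine ⟨n0, fun n hn hnn q hqo hq hqn => ⟨fun a ha1 ha2 ha3 => ?_, fun b hb => ?_⟩⟩
  · have hq2 : ∀ l ∈ q.primeFactors, l ≠ 2 := by
      rintro l hl rfl
      exact (Nat.not_even_iff_odd.2 hqo) (even_iff_two_dvd.2 (Nat.dvd_of_mem_primeFactors hl))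
    have key := h n hn hnn q (fun l => {red l a}) 3 hqo hq hqn (by
      intro l hl
      have hlp := Nat.prime_of_mem_primeFactors hl
      have hlq : (l : ℤ) ∣ (q : ℤ) := by exact_mod_cast Nat.dvd_of_mem_primeFactors hl
      have hl0 : (0 : ℤ) < l := by exact_mod_cast hlp.pos
      refine ⟨?_, Finset.singleton_nonempty _, ?_⟩
      · rw [Finset.singleton_subset_iff, mem_Gl]
        refine ⟨fun i => ⟨Int.emod_nonneg _ hl0.ne', Int.emod_lt_of_pos _ hl0⟩, ?_, ?_⟩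
        · have h1 := hlq.trans ha1
          have h2 : (l : ℤ) ∣ ∑ i, (a i ^ 2 - red l a i ^ 2) := by
            apply Finset.dvd_sum
            intro i _
            have := (red_dvd l a i).mul_right (a i + red l a i)
            have e : (a i - red l a i) * (a i + red l a i) = a i ^ 2 - red l a i ^ 2 := by ring
            rwa [e] at this
          rw [Finset.sum_sub_distrib] at h2
          have h3 := dvd_sub h1 h2
          have e : (∑ i, a i ^ 2) - (n : ℤ) - ((∑ i, a i ^ 2) - ∑ i, red l a i ^ 2) = (∑ i, red l a i ^ 2) - n := by ring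
          rwa [e] at h3
        · obtain ⟨i, hi⟩ := ha2 l hlp (Nat.dvd_of_mem_primeFactors hl)
          refine ⟨i, fun hd => hi ?_⟩
          have := dvd_add (red_dvd l a i) hd
          rwa [sub_add_cancel] at this
      · intro x hx e he hd
        rw [Finset.mem_singleton] at hx
        subst hx
        exact pf_not l (pf a) (cop_not q l _ hl ha3) e he ((NQX.dvd_red l a e).2 hd)) (by
      intro l hl
      have hlp := Nat.prime_of_mem_primeFactors hl
      have hG := card_Gl_up l hlp (hq2 l hl) n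
      have hG0 := Gl_pos n l hlp (hq2 l hl)
      have h3 : (3 : ℝ) ≤ l := by
        have h2 := hlp.two_le
        have h3 := hq2 l hl
        have : 3 ≤ l := by omega
        exact_mod_cast this
      have hl0 : (0 : ℝ) < l := by linarith
      rw [Finset.card_singleton]
      have key : (l : ℝ) / (l + 1) ≤ (l : ℝ) ^ 3 * (((1 : ℕ) : ℝ) / (Gl n l).card) := by
        rw [Nat.cast_one, mul_one_div, div_le_div_iff₀ (by linarith) hG0]
        nlinarith [mul_le_mul_of_nonneg_left hG hl0.le]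
      constructor
      · refine le_trans ?_ key
        rw [div_le_div_iff₀ (by norm_num) (by linarith)]
        linarith
      · intro _
        refine le_trans ?_ key
        have e : (l : ℝ) / (l + 1) = 1 - 1 / (l + 1) := by field_simp; ring
        rw [e]
        have : 1 / ((l : ℝ) + 1) ≤ 7 / l := by
          rw [div_le_div_iff₀ (by linarith) hl0]
          linarith
        linarith)
    refine key.trans ?_
    have hfin : (InClass n q a ((n : ℝ) ^ (1 / (t : ℝ)))).Finite := by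
      apply ((reps n).finite_toSet).subset
      intro X hX
      rw [mem_coe, mem_reps]
      exact hX.1
    have hsub : Reps n q.primeFactors (fun l => {red l a}) {0, -2} ((n : ℝ) ^ (1 / (t : ℝ))) ⊆ InClass n q a ((n : ℝ) ^ (1 / (t : ℝ))) := by
      intro X hX
      obtain ⟨h1, h2, h3, h4⟩ := hX
      refine ⟨h1, h2, fun i => ?_, ?_, ?_⟩
      · apply dvd_of_primes q hq
        intro l hl
        have := h3 l hl
        rw [Finset.mem_singleton] at this
        exact red_congr l X a this i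
      · have := h4 0 (by simp)
        rwa [add_zero] at this
      · have := h4 (-2) (by simp)
        rwa [← sub_eq_add_neg] at this
    exact_mod_cast Set.ncard_le_ncard hsub hfin
  · have hq2 : ∀ l ∈ q.primeFactors, l ≠ 2 := by
      rintro l hl rfl
      exact (Nat.not_even_iff_odd.2 hqo) (even_iff_two_dvd.2 (Nat.dvd_of_mem_primeFactors hl))
    have hlb : ∀ l ∈ q.primeFactors, ¬ (l : ℤ) ∣ b := by
      intro l hl hd
      exact cop_not q l _ hl hb (hd.mul_right _)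
    have key := h n hn hnn q (fun l => Tl n l b) 1 hqo hq hqn (by
      intro l hl
      have hlp := Nat.prime_of_mem_primeFactors hl
      refine ⟨fun x hx => ((mem_Tl n l b x).1 hx).1, hit cnt l hlp (hq2 l hl) n b (hlb l hl), ?_⟩
      intro x hx e he hd
      have h1 := ((mem_Tl n l b x).1 hx).2
      have h2 := dvd_sub hd h1
      have e1 : pf x + e - (pf x - b) = b + e := by ring
      rw [e1] at h2
      exact pf_not l b (cop_not q l _ hl hb) e he h2) (by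
      intro l hl
      have hlp := Nat.prime_of_mem_primeFactors hl
      have hG := card_Gl_up l hlp (hq2 l hl) n
      have hG0 := Gl_pos n l hlp (hq2 l hl)
      have h3' : 3 ≤ l := by
        have h2 := hlp.two_le
        have h3 := hq2 l hl
        omega
      have h3 : (3 : ℝ) ≤ l := by exact_mod_cast h3'
      have hs : (1 : ℝ) ≤ ((Tl n l b).card : ℝ) := by
        exact_mod_cast (hit cnt l hlp (hq2 l hl) n b (hlb l hl)).card_pos
      have hc : 5 ≤ l → (l : ℝ) ^ 2 - 6 * l ≤ ((Tl n l b).card : ℝ) := by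
        intro h5
        have := cnt l hlp h5 n b (fun h => hlb l hl h.2)
        rw [abs_le] at this
        linarith [this.1]
      rw [pow_one]
      have := num1 l ((Tl n l b).card) ((Gl n l).card) h3 hs (fun h7 => hc (by
        have : 7 < l := by exact_mod_cast h7
        omega)) (fun h7 => by
        have h8 : l = 7 := by exact_mod_cast h7
        have := hc (by omega)
        rw [h7] at this
        linarith) (fun h7 => by
        have h8 : l ≤ 7 := by exact_mod_cast h7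
        have h9 : l = 3 ∨ l = 5 ∨ l = 7 := by
          have hp := hlp
          interval_cases l
          · left; rfl
          · exact absurd hp (by norm_num)
          · right; left; rfl
          · exact absurd hp (by norm_num)
          · right; right; rfl
        rcases h9 with h9 | h9 | h9
        · left; rw [h9]; norm_num
        · right; left; rw [h9]; norm_num
        · right; right; rw [h9]; norm_num) hG hG0
      refine ⟨this.1, fun h7 => this.2 (by exact_mod_cast h7)⟩)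
    rw [pow_one] at key
    refine key.trans ?_
    have hfin : (ValueInClass n q b ((n : ℝ) ^ (1 / (t : ℝ)))).Finite := by
      apply ((reps n).finite_toSet).subset
      intro X hX
      rw [mem_coe, mem_reps]
      exact hX.1
    have hsub : Reps n q.primeFactors (fun l => Tl n l b) {0, -2} ((n : ℝ) ^ (1 / (t : ℝ))) ⊆ ValueInClass n q b ((n : ℝ) ^ (1 / (t : ℝ))) := by
      intro X hX
      obtain ⟨h1, h2, h3, h4⟩ := hX
      refine ⟨h1, h2, ?_, ?_, ?_⟩
      · apply dvd_of_primes q hq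
        intro l hl
        have a1 := ((mem_Tl n l b _).1 (h3 l hl)).2
        have a2 := NQX.pf_red l X
        have := dvd_add a1 a2
        have e : pf (red l X) - b + (pf X - pf (red l X)) = pf X - b := by ring
        rwa [e] at this
      · have := h4 0 (by simp)
        rwa [add_zero] at this
      · have := h4 (-2) (by simp)
        rwa [← sub_eq_add_neg] at this
    exact_mod_cast Set.ncard_le_ncard hsub hfin

theorem result :
    (∃ t : ℕ, 1 ≤ t ∧ ∀ ε : ℝ, 0 < ε → ∃ n₀ : ℕ, ∀ n : ℕ, Odd n → n₀ ≤ n → ∀ q : ℕ,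
      Odd q → Squarefree q → (q : ℝ) ≤ (n : ℝ) ^ (1 / (t : ℝ)) →
      (∀ a : Fin 4 → ℤ, (q : ℤ) ∣ (∑ i, a i ^ 2) - n → (∀ l : ℕ, l.Prime → l ∣ q → ∃ i, ¬ (l : ℤ) ∣ a i) →
        Int.gcd (pf a * (pf a - 2)) q = 1 → (n : ℝ) ^ (1 - ε) / (q : ℝ) ^ 3 ≤ ((InClass n q a ((n : ℝ) ^ (1 / (t : ℝ)))).ncard : ℝ)) ∧
      (∀ b : ℤ, Int.gcd (b * (b - 2)) q = 1 → (n : ℝ) ^ (1 - ε) / q ≤ ((ValueInClass n q b ((n : ℝ) ^ (1 / (t : ℝ)))).ncard : ℝ))) ∧
    ∀ k : ℕ, ∃ t : ℕ, 1 ≤ t ∧ ∃ c : ℝ, 0 < c ∧ ∃ C : ℝ, 0 < C ∧ ∃ n₀ : ℕ, ∀ n : ℕ, Odd n → n₀ ≤ n →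
      ∀ E : Finset ℤ, E.card ≤ k → (∀ e ∈ E, Even e) → ∀ (P : Finset ℕ) (S : ℕ → Finset (Fin 4 → ℤ)),
      (∀ l ∈ P, l.Prime ∧ l ≠ 2 ∧ S l ⊆ Gl n l ∧ (S l).Nonempty ∧ ∀ a ∈ S l, ∀ e ∈ E, ¬ (l : ℤ) ∣ pf a + e) →
      ((∏ l ∈ P, l : ℕ) : ℝ) ≤ (n : ℝ) ^ (1 / (t : ℝ)) →
      (∀ l : ℕ, l.Prime → l ≠ 2 → l ∉ P → ∃ a ∈ Gl n l, ∀ e ∈ E, ¬ (l : ℤ) ∣ pf a + e) →
        c * Expected n P S E ≤ ((Reps n P S E ((n : ℝ) ^ (1 / (t : ℝ)))).ncard : ℝ) ∧
        ((Reps n P S E ((n : ℝ) ^ (1 / (t : ℝ)))).ncard : ℝ) ≤ C * Expected n P S E :=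
  ⟨pairs, both⟩

end Pool.Agent.Results.MP_0ad054_nt.PrescribedClasses
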