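import Pool.Agent.Q117.FQ.All
import Pool.Agent.Q197.FM.Four1

/-!
# MP_0ad054_nt: all prescribed surroundings of `p = x² + 3 y² + 5 z² + 7 w²` for every odd `n`

For every large odd `n` and every admissible set `H` of at most `k` even shifts of size at most `c R(n)`, `R(n) = log n log₂ n log₄ n / (log₃ n)²`
(Rankin's function), there are at least `n ^ (1 - ε)` representations of `n` as a sum of four squares such that all the `p + h`, `h ∈ H`, are almost
primes and all other integers at distance at most `c R(n)` from `p` have a prime factor `≤ log n`.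
-/

set_option autoImplicit false

namespace Pool.Agent.Results.MP_0ad054_nt.PrescribedSurroundings

open Finset Filter
open Pool.Agent.W65.FS (pf preps reps mem_reps pf_lower pf_upper gc)
open Pool.Agent.Q117.LF (Ro)
open Pool.Agent.Q117.GP (Rk)
open Pool.Agent.Q117.FQ

/-- the number `p = x ^ 2 + 3 y ^ 2 + 5 z ^ 2 + 7 w ^ 2` -/
def value (X : Fin 4 → ℤ) : ℤ := X 0 ^ 2 + 3 * X 1 ^ 2 + 5 * X 2 ^ 2 + 7 * X 3 ^ 2

/-- Rankin's function `log x log₂ x log₄ x / (log₃ x) ^ 2` -/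
noncomputable def R (x : ℝ) : ℝ :=
  Real.log x * Real.log (Real.log x) * Real.log (Real.log (Real.log (Real.log x))) / (Real.log (Real.log (Real.log x))) ^ 2

/-- the representations `n = x ^ 2 + y ^ 2 + z ^ 2 + w ^ 2` such that all the `p + h`, `h ∈ H`, are positive with at most `K` prime factors (with
multiplicity), all larger than `v`, and every other integer at distance at most `D` from `p` has a prime factor `≤ u` -/
def Surrounded (n K : ℕ) (H : Finset ℤ) (v D u : ℝ) : Set (Fin 4 → ℤ) :=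
  {X | X 0 ^ 2 + X 1 ^ 2 + X 2 ^ 2 + X 3 ^ 2 = n ∧
    (∀ h ∈ H, 0 < value X + h ∧ (value X + h).toNat.primeFactorsList.length ≤ K ∧ ∀ q : ℕ, q.Prime → (q : ℤ) ∣ value X + h → v < q) ∧
    ∀ s : ℤ, |(s : ℝ)| ≤ D → s ∉ H → ∃ q : ℕ, q.Prime ∧ (q : ℤ) ∣ value X + s ∧ (q : ℝ) ≤ u}

/-- almost primes of size about `n` have few prime factors -/
theorem few (t : ℕ) (ht : 1 ≤ t) : ∃ n₀ : ℕ, ∀ n : ℕ, n₀ ≤ n → ∀ m : ℕ, m ≠ 0 → m ≤ 8 * n →
    (∀ q : ℕ, q.Prime → q ∣ m → (n : ℝ) ^ (1 / (t : ℝ)) < q) → m.primeFactorsList.length ≤ t := by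
  have h1 : Tendsto (fun x : ℝ => x ^ (1 / (t : ℝ))) atTop atTop := tendsto_rpow_atTop (by positivity)
  obtain ⟨x₀, hx₀⟩ := eventually_atTop.1 ((h1.eventually_gt_atTop 8).and (eventually_gt_atTop (1 : ℝ)))
  refine ⟨⌈x₀⌉₊, fun n hn m hm0 hm hq => ?_⟩
  obtain ⟨h2, h3⟩ := hx₀ n (Nat.ceil_le.1 hn)
  have hn0 : (0 : ℝ) < n := by linarith
  by_contra hlt
  have h4 : t + 1 ≤ m.primeFactorsList.length := by omega
  have h5 := Pool.Agent.W65.FS.omega_bound ((n : ℝ) ^ (1 / (t : ℝ))) (by positivity) m hm0 (fun q h1 h2 => (hq q h1 h2).le)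
  rw [ArithmeticFunction.cardFactors_apply] at h5
  have h6 : ((n : ℝ) ^ (1 / (t : ℝ))) ^ (t + 1) ≤ ((n : ℝ) ^ (1 / (t : ℝ))) ^ m.primeFactorsList.length :=
    pow_le_pow_right₀ (by linarith) h4
  have h7 : ((n : ℝ) ^ (1 / (t : ℝ))) ^ t = n := by
    rw [← Real.rpow_natCast, ← Real.rpow_mul hn0.le, one_div, inv_mul_cancel₀ (by positivity), Real.rpow_one]
  rw [pow_succ, h7] at h6
  have h8 : (m : ℝ) ≤ 8 * n := by exact_mod_cast hm
  have h9 : (n : ℝ) * (n : ℝ) ^ (1 / (t : ℝ)) ≤ 8 * n := h6.trans (h5.trans h8)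
  nlinarith

theorem Rk_small (c : ℝ) : ∀ᶠ n : ℕ in atTop, c * Rk n < n := by
  have h1 : ∀ᶠ x : ℝ in atTop, |Rk x| ≤ (Real.log x) ^ 2 := by
    have t1 : Tendsto (fun x : ℝ => Real.log (Real.log (Real.log x))) atTop atTop :=
      Real.tendsto_log_atTop.comp (Real.tendsto_log_atTop.comp Real.tendsto_log_atTop)
    have t2 : Tendsto (fun x : ℝ => Real.log (Real.log (Real.log (Real.log x)))) atTop atTop :=
      Real.tendsto_log_atTop.comp t1
    have t3 : Tendsto (fun x : ℝ => Real.log (Real.log x)) atTop atTop := Real.tendsto_log_atTop.comp Real.tendsto_log_atTop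
    filter_upwards [t1.eventually_ge_atTop 1, t2.eventually_ge_atTop 1, t3.eventually_ge_atTop 1, Real.tendsto_log_atTop.eventually_ge_atTop 1] with x a1 a2 a3 a4
    have b2 : Real.log (Real.log (Real.log (Real.log x))) ≤ Real.log (Real.log (Real.log x)) := Real.log_le_self (by linarith)
    have b3 : Real.log (Real.log x) ≤ Real.log x := Real.log_le_self (by linarith)
    have c1 : 0 ≤ Rk x := by
      unfold Rk
      positivity
    rw [abs_of_nonneg c1]
    unfold Rk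
    rw [div_le_iff₀ (by positivity)]
    have d1 : Real.log (Real.log (Real.log (Real.log x))) ≤ Real.log (Real.log (Real.log x)) ^ 2 := by nlinarith
    have d2 : Real.log x * Real.log (Real.log x) ≤ Real.log x ^ 2 := by nlinarith
    have d3 : 0 ≤ Real.log x * Real.log (Real.log x) := by positivity
    calc _ ≤ Real.log x ^ 2 * Real.log (Real.log (Real.log (Real.log x))) := mul_le_mul_of_nonneg_right d2 (by linarith)
      _ ≤ _ := mul_le_mul_of_nonneg_left d1 (by positivity)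
  have h2 : ∀ᶠ x : ℝ in atTop, |c| * (Real.log x) ^ 2 < x := by
    have h3 := isLittleO_log_rpow_atTop (show (0 : ℝ) < 1 / 4 by norm_num)
    have h4 : Tendsto (fun x : ℝ => x ^ (1 / 2 : ℝ)) atTop atTop := tendsto_rpow_atTop (by norm_num)
    filter_upwards [h3.bound (show (0 : ℝ) < 1 by norm_num), h4.eventually_gt_atTop |c|, eventually_gt_atTop (1 : ℝ)] with x a1 a2 a3
    have b1 : 0 ≤ Real.log x := Real.log_nonneg a3.le
    have b2 : (0 : ℝ) ≤ x ^ (1 / 4 : ℝ) := by positivity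
    rw [Real.norm_of_nonneg b1, Real.norm_of_nonneg b2, one_mul] at a1
    have b3 : Real.log x ^ 2 ≤ x ^ (1 / 2 : ℝ) := by
      calc Real.log x ^ 2 ≤ (x ^ (1 / 4 : ℝ)) ^ 2 := pow_le_pow_left₀ b1 a1 2
        _ = _ := by
          rw [← Real.rpow_natCast, ← Real.rpow_mul (by linarith)]
          norm_num
    have b4 : x ^ (1 / 2 : ℝ) * x ^ (1 / 2 : ℝ) = x := by
      rw [← Real.rpow_add (by linarith)]
      norm_num
    have b5 : 0 < x ^ (1 / 2 : ℝ) := Real.rpow_pos_of_pos (by linarith) _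
    calc |c| * Real.log x ^ 2 ≤ |c| * x ^ (1 / 2 : ℝ) := mul_le_mul_of_nonneg_left b3 (abs_nonneg _)
      _ < x ^ (1 / 2 : ℝ) * x ^ (1 / 2 : ℝ) := mul_lt_mul_of_pos_right a2 b5
      _ = x := b4
  have h3 := tendsto_natCast_atTop_atTop (R := ℝ)
  filter_upwards [h3.eventually h1, h3.eventually h2] with n a1 a2
  calc c * Rk n ≤ |c * Rk n| := le_abs_self _
    _ = |c| * |Rk n| := abs_mul _ _
    _ ≤ |c| * Real.log n ^ 2 := mul_le_mul_of_nonneg_left a1 (abs_nonneg _)
    _ < n := a2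

theorem result (k : ℕ) (ε : ℝ) (hε : 0 < ε) : ∃ t : ℕ, 1 ≤ t ∧ ∃ c : ℝ, 0 < c ∧ ∃ n₀ : ℕ, ∀ n : ℕ, Odd n → n₀ ≤ n →
    ∀ H : Finset ℤ, H.card ≤ k → 0 ∈ H → (∀ h ∈ H, Even h ∧ |(h : ℝ)| ≤ c * R n) →
      (∀ l : ℕ, l.Prime → l ≠ 2 → ∃ r : ℤ, ∀ h ∈ H, ¬ (l : ℤ) ∣ r + h) →
      (n : ℝ) ^ (1 - ε) ≤ ((Surrounded n t H ((n : ℝ) ^ (1 / (t : ℝ))) (c * R n) (Real.log n)).ncard : ℝ) ∧
        (n : ℝ) ^ (1 / 2 - ε) ≤ ((value '' Surrounded n t H ((n : ℝ) ^ (1 / (t : ℝ))) (c * R n) (Real.log n)).ncard : ℝ) := by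
  classical
  obtain ⟨t, ht, c, hc, n₁, h1⟩ := rqC k (ε / 4) (by positivity)
  obtain ⟨n₂, h2⟩ := few t ht
  obtain ⟨C, hC, hmul⟩ := Pool.Agent.Q197.FM.mult (ε / 4) (by positivity)
  have e1 : ∀ᶠ n : ℕ in atTop, C ≤ (n : ℝ) ^ (ε / 4) := by
    have h3 := tendsto_natCast_atTop_atTop (R := ℝ)
    exact h3.eventually ((tendsto_rpow_atTop (show (0 : ℝ) < ε / 4 by positivity)).eventually_ge_atTop C)
  obtain ⟨n₃, h3⟩ := eventually_atTop.1 ((Rk_small c).and e1)
  refine ⟨t, ht, c, hc, max (max n₁ n₂) (max n₃ 1), ?_⟩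
  intro n hodd hn H hH h0 hHe hadm
  have hn1 : n₁ ≤ n := (le_max_left _ _).trans ((le_max_left _ _).trans hn)
  have hn2 : n₂ ≤ n := (le_max_right _ _).trans ((le_max_left _ _).trans hn)
  have hn3 : n₃ ≤ n := (le_max_left _ _).trans ((le_max_right _ _).trans hn)
  have hn4 : 1 ≤ n := (le_max_right _ _).trans ((le_max_right _ _).trans hn)
  have hn0 : (0 : ℝ) < n := by exact_mod_cast hn4
  have hn1' : (1 : ℝ) ≤ n := by exact_mod_cast hn4
  have hRk : ∀ x : ℝ, R x = Rk x := fun x => rfl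
  rw [hRk] at hHe ⊢
  have h4 := h1 n hodd hn1 H hH h0 hHe hadm
  obtain ⟨h5, h6⟩ := h3 n hn3
  set S := Surrounded n t H ((n : ℝ) ^ (1 / (t : ℝ))) (c * Rk n) (Real.log n) with hS
  set T := RQ n H ((n : ℝ) ^ (1 / (t : ℝ))) (c * Rk n) (Real.log n) with hT
  have hpf : ∀ X, value X = pf X := fun X => rfl
  have hsub : (T : Set (Fin 4 → ℤ)) ⊆ S := by
    intro X hX
    rw [mem_coe, hT] at hX
    unfold RQ preps at hX
    rw [mem_filter, mem_filter, mem_reps] at hX
    obtain ⟨⟨hX1, _⟩, hX2, hX3⟩ := hX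
    have hlow := pf_lower n X hX1
    have hup := pf_upper n X hX1
    refine ⟨by rw [← hX1, Fin.sum_univ_four], ?_, ?_⟩
    · intro h hh
      have a1 := (hHe h hh).2
      have a2 : |(h : ℝ)| < n := lt_of_le_of_lt a1 h5
      have a3 : |h| < (n : ℤ) := by exact_mod_cast a2
      rw [abs_lt] at a3
      have a4 : 0 < pf X + h := by linarith [a3.1]
      refine ⟨a4, ?_, fun q hq hd => hX2 h hh q hq hd⟩
      apply h2 n hn2 _ (by
        rw [hpf]
        omega)
      · rw [hpf]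
        have : pf X + h ≤ 8 * n := by linarith [a3.2]
        omega
      · intro q hq hd
        apply hX2 h hh q hq
        have a5 : ((pf X + h).toNat : ℤ) = pf X + h := Int.toNat_of_nonneg a4.le
        rw [← a5]
        rw [hpf] at hd
        exact_mod_cast hd
    · intro s hs hsH
      have a1 := hX3 s hs hsH
      unfold Ro at a1
      push Not at a1
      obtain ⟨q, hq, hd, hle⟩ := a1
      exact ⟨q, hq, hd, hle⟩
  have hfin : S.Finite := by
    apply ((reps n).finite_toSet).subset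
    intro X hX
    rw [mem_coe, mem_reps, Fin.sum_univ_four]
    exact hX.1
  have hc1 : (T.card : ℝ) ≤ S.ncard := by
    have := Set.ncard_le_ncard hsub hfin
    rw [Set.ncard_coe_finset] at this
    exact_mod_cast this
  constructor
  · calc (n : ℝ) ^ (1 - ε) ≤ (n : ℝ) ^ (1 - ε / 4) := Real.rpow_le_rpow_of_exponent_le hn1' (by linarith)
      _ ≤ T.card := h4
      _ ≤ _ := hc1
  · have b1 : (T.image pf).card ≤ (value '' S).ncard := by
      rw [← Set.ncard_coe_finset, coe_image]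
      exact Set.ncard_le_ncard (Set.image_mono hsub) (hfin.image _)
    have b2 : (T.card : ℝ) ≤ (T.image pf).card * (C * (n : ℝ) ^ (1 / 2 + ε / 4)) := by
      rw [card_eq_sum_card_image pf T]
      push_cast
      rw [← nsmul_eq_mul]
      apply sum_le_card_nsmul
      intro v _
      apply hmul n hn4 v
      intro X hX
      rw [mem_filter] at hX
      refine ⟨?_, hX.2⟩
      have := hX.1
      rw [hT] at this
      unfold RQ preps at this
      rw [mem_filter, mem_filter, mem_reps] at this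
      exact this.1.1
    have b3 : (n : ℝ) ^ (1 - ε / 4) ≤ (T.image pf).card * ((n : ℝ) ^ (ε / 4) * (n : ℝ) ^ (1 / 2 + ε / 4)) := by
      refine h4.trans (b2.trans ?_)
      gcongr
    rw [← Real.rpow_add hn0] at b3
    have b4 : (n : ℝ) ^ (1 / 2 - ε) * (n : ℝ) ^ (ε / 4 + (1 / 2 + ε / 4)) ≤ (n : ℝ) ^ (1 - ε / 4) := by
      rw [← Real.rpow_add hn0]
      exact Real.rpow_le_rpow_of_exponent_le hn1' (by linarith)
    have b5 : (n : ℝ) ^ (1 / 2 - ε) * (n : ℝ) ^ (ε / 4 + (1 / 2 + ε / 4)) ≤ ((T.image pf).card : ℝ) * (n : ℝ) ^ (ε / 4 + (1 / 2 + ε / 4)) :=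
      b4.trans b3
    have b6 := le_of_mul_le_mul_right b5 (Real.rpow_pos_of_pos hn0 _)
    exact b6.trans (by exact_mod_cast b1)

end Pool.Agent.Results.MP_0ad054_nt.PrescribedSurroundings
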