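import Pool.Agent.Q197.FM.Four3

/-!
# MP_0ad054_nt: the question for random sets of integers

The question asks whether every odd `n` is a sum of four squares `x² + y² + z² + w²` such that
`p = x² + 3 y² + 5 z² + 7 w²` and `p - 2` are primes.

* Part 1 (unconditional). Every odd `n ≥ 7` has at least `c n ^ (1 / 2 - ε)` different numbers `p` of
  this form, all between `n` and `7 n`, such that all prime factors of `p` are larger than `p ^ δ` and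
  all prime factors of `p - 2` are larger than `(p - 2) ^ δ`.
* Part 2. The set of the primes is replaced by a random set `A` of natural numbers. It is only assumed
  that the events `m ∈ A` are independent and that `m ∈ A` has probability at least `m ^ (-β)` for all
  large `m` without prime factors up to `m ^ δ`. Then almost surely every large odd `n` has at least
  `n ^ (1 / 2 - 2 β - ε)` different `p` with `p ∈ A` and `p - 2 ∈ A`.
-/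

set_option autoImplicit false

namespace Pool.Agent.Results.MP_0ad054_nt.RandomPrimesFourSquares

open MeasureTheory ProbabilityTheory Filter

theorem result (ε : ℝ) (hε : 0 < ε) :
    (∃ δ : ℝ, 0 < δ ∧ ∃ c : ℝ, 0 < c ∧ ∀ n : ℕ, 7 ≤ n → Odd n →
      ∃ P : Finset ℕ, c * (n : ℝ) ^ (1 / 2 - ε) ≤ (P.card : ℝ) ∧
        ∀ p ∈ P, n ≤ p ∧ p ≤ 7 * n ∧
          (∀ q : ℕ, q.Prime → q ∣ p → (p : ℝ) ^ δ < q) ∧
          (∀ q : ℕ, q.Prime → q ∣ p - 2 → ((p - 2 : ℕ) : ℝ) ^ δ < q) ∧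
          ∃ x y z w : ℤ, (n : ℤ) = x ^ 2 + y ^ 2 + z ^ 2 + w ^ 2 ∧
            (p : ℤ) = x ^ 2 + 3 * y ^ 2 + 5 * z ^ 2 + 7 * w ^ 2) ∧
    (∀ β : ℝ, 0 ≤ β → 2 * β + ε ≤ 1 / 2 → ∃ δ : ℝ, 0 < δ ∧
      ∀ (Ω : Type) [MeasurableSpace Ω] (μ : Measure Ω) [IsProbabilityMeasure μ] (A : Ω → Set ℕ),
        (∀ m : ℕ, MeasurableSet {ω | m ∈ A ω}) →
        iIndepSet (fun m : ℕ => {ω | m ∈ A ω}) μ →
        (∃ m₀ : ℕ, ∀ m : ℕ, m₀ ≤ m → (∀ q : ℕ, q.Prime → q ∣ m → (m : ℝ) ^ δ < q) →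
          (m : ℝ) ^ (-β) ≤ μ.real {ω | m ∈ A ω}) →
        ∀ᵐ ω ∂μ, ∃ n₀ : ℕ, ∀ n : ℕ, n₀ ≤ n → Odd n →
          ∃ P : Finset ℕ, (n : ℝ) ^ (1 / 2 - 2 * β - ε) ≤ (P.card : ℝ) ∧
            ∀ p ∈ P, 2 ≤ p ∧ p ∈ A ω ∧ p - 2 ∈ A ω ∧
              ∃ x y z w : ℤ, (n : ℤ) = x ^ 2 + y ^ 2 + z ^ 2 + w ^ 2 ∧
                (p : ℤ) = x ^ 2 + 3 * y ^ 2 + 5 * z ^ 2 + 7 * w ^ 2) := by
  constructor
  · obtain ⟨δ, hδ, c, hc, h⟩ := Pool.Agent.Q197.FM.values ε hε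
    refine ⟨δ, hδ, c, hc, fun n hn hodd => ?_⟩
    obtain ⟨P, h1, _, h2⟩ := h n hn hodd
    exact ⟨P, h1, h2⟩
  · intro β hβ hβε
    obtain ⟨δ, hδ, c, hc, h⟩ := Pool.Agent.Q197.FM.values (ε / 2) (by linarith)
    refine ⟨δ, hδ, fun Ω _ μ _ A hA1 hA2 hm => ?_⟩
    obtain ⟨m₀, hm⟩ := hm
    have h1 := Pool.Agent.Q197.FM.four_random (μ := μ) (A := A) ⟨hA1, hA2⟩ hβ (show 0 < ε / 2 by linarith)
      (by linarith) hc h hm
    filter_upwards [h1] with ω h2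
    obtain ⟨n₀, h3⟩ := eventually_atTop.1 h2
    refine ⟨n₀, fun n hn hodd => ?_⟩
    obtain ⟨P, h4, h5⟩ := h3 n hn hodd
    refine ⟨P, ?_, h5⟩
    have : 1 / 2 - 2 * β - 2 * (ε / 2) = 1 / 2 - 2 * β - ε := by ring
    rwa [this] at h4

end Pool.Agent.Results.MP_0ad054_nt.RandomPrimesFourSquares
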